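import Mathlib

set_option autoImplicit false
open Matrix Finset

namespace Pool.Agent.Results.MP_8f6a5a_an.Cex

/-- spectral radius of a real matrix: largest modulus of a complex eigenvalue -/
noncomputable def rho {n : ℕ} (M : Matrix (Fin n) (Fin n) ℝ) : ENNReal :=
  spectralRadius ℂ (M.map Complex.ofReal)

/-- conditions 1 to 3 on `P` -/
def Adm {n : ℕ} (P : Matrix (Fin n) (Fin n) ℝ) : Prop :=
  P.IsSymm ∧ (∀ r s : Fin n, 1 < |(r : ℤ) - s| → P r s = 0) ∧
    (∀ r s : Fin n, |(r : ℤ) - s| ≤ 1 → 0 < P r s) ∧ rho P = 1 ∧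
    ∀ s : Fin n, ∑ r : Fin n with r.1 + 1 = s.1 ∨ r.1 = s.1 + 1, P r s ≤ 1

lemma mem_spec {n : ℕ} (M : Matrix (Fin n) (Fin n) ℂ) (μ : ℂ) :
    μ ∈ spectrum ℂ M ↔ ∃ x ≠ 0, M *ᵥ x = μ • x := by
  rw [spectrum.mem_iff, isUnit_iff_isUnit_det, isUnit_iff_ne_zero, not_not,
    ← exists_mulVec_eq_zero_iff]
  simp only [sub_mulVec, sub_eq_zero, Algebra.algebraMap_eq_smul_one, smul_mulVec, one_mulVec,
    eq_comm]

lemma le_rho {n : ℕ} (M : Matrix (Fin n) (Fin n) ℝ) (μ : ℂ) (x : Fin n → ℂ) (hx : x ≠ 0)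
    (h : M.map Complex.ofReal *ᵥ x = μ • x) : (‖μ‖₊ : ENNReal) ≤ rho M :=
  le_iSup₂_of_le μ ((mem_spec _ _).2 ⟨x, hx, h⟩) le_rfl

lemma rho_one {n : ℕ} [NeZero n] (M : Matrix (Fin n) (Fin n) ℝ) (hM : ∀ i j, 0 ≤ M i j)
    (v : Fin n → ℝ) (hv : ∀ i, 0 < v i) (h : M *ᵥ v = v) : rho M = 1 := by
  refine le_antisymm (iSup₂_le fun μ hμ => ?_) ?_
  · obtain ⟨x, hx, e⟩ := (mem_spec _ _).1 hμ
    obtain ⟨i, -, hi⟩ := exists_max_image univ (fun i => ‖x i‖ / v i) univ_nonempty
    obtain ⟨k, hk⟩ := Function.ne_iff.1 hx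
    have h0 : 0 < ‖x i‖ / v i := (div_pos (norm_pos_iff.2 hk) (hv k)).trans_le (hi k (mem_univ _))
    have h1 : ‖μ‖ * ‖x i‖ ≤ ‖x i‖ := calc
      _ = ‖∑ j, (M i j : ℂ) * x j‖ := by rw [← norm_mul]; exact congrArg _ (congrFun e i).symm
      _ ≤ ∑ j, ‖x i‖ / v i * (M i j * v j) := norm_sum_le_of_le _ fun j _ => by
          rw [norm_mul, Complex.norm_real, Real.norm_of_nonneg (hM i j)]
          have := (div_le_iff₀ (hv j)).1 (hi j (mem_univ _))
          nlinarith [hM i j]
      _ = _ := by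
          rw [← mul_sum, show ∑ j, M i j * v j = v i from congrFun h i, div_mul_cancel₀ _ (hv i).ne']
    have h2 : 0 < ‖x i‖ := (div_pos_iff_of_pos_right (hv i)).1 h0
    have : ‖μ‖ ≤ 1 := by nlinarith
    exact_mod_cast this
  · have := le_rho M 1 (fun i => (v i : ℂ)) (fun e => (hv 0).ne' (by simpa using congrFun e 0)) (by
      ext i
      have := congrArg Complex.ofReal (congrFun h i)
      simpa [mulVec, dotProduct] using this)
    simpa using this

noncomputable def a (j : ℕ) : ℝ := if j = 0 then 2 / 3 else if j < 9999 then 1 / 3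
  else if j = 9999 then 2 / 3 - 1 / 10 ^ 6 else if j = 10002 then 1 - 1 / 10 ^ 10 else 1 - 2 / 10 ^ 10
noncomputable def b (j : ℕ) : ℝ :=
  if j < 9999 then 1 / 3 else if j = 9999 then 1 / 10 ^ 8 else 1 / 10 ^ 10
noncomputable def p (r s : ℕ) : ℝ :=
  (if s = r then a r else 0) + (if s = r + 1 then b r else 0) + (if r = s + 1 then b s else 0)
noncomputable def v (j : ℕ) : ℝ := if j < 10000 then 1 else 100
noncomputable def al (x : ℝ) : ℝ := (299999997 / 20000000000) - (9 / 10000000000) * ((x + 1) * x / 2)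
noncomputable def be (x : ℝ) : ℝ := 99 / 100 + (2699999973 / 200000000000000000000) * ((x + 1) * x / 2)
  - (81 / 100000000000000000000) * ((x + 2) * (x + 1) * x * (x - 1) / 24)
noncomputable def α (j : ℕ) : ℝ := if j < 10000 then al j else if j = 10000 then (-233239499999704999999 / 400000000000000000)
  else if j = 10001 then (-660104999999249999997 / 400000000000000000) else (223336124999738749999 / 100000000000000000)
noncomputable def β (j : ℕ) : ℝ := if j < 10000 then be j else if j = 10000 then (7922699999973 / 80000000000)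
  else if j = 10001 then (-660104999999249999997 / 400000000000000000) else (-668027699999222999997 / 80000000000000000)
noncomputable def c (j : ℕ) : ℝ := if j < 9999 then 3 / 10 ^ 10 * (1 - be j)
  else if j = 9999 then (112039795943705040499 / 40000000000000000000000000) + 0 else if j = 10000 then (75985320006244999999 / 4000000000000000000000000000)
  else if j = 10001 then 0 else (2893466249996637499987 / 1000000000000000000000000000)

lemma a_pos (j : ℕ) : 0 < a j := by unfold a; split_ifs <;> norm_num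
lemma b_pos (j : ℕ) : 0 < b j ∧ b j ≤ 1 / 3 := by unfold b; split_ifs <;> norm_num
lemma v_pos (j : ℕ) : 0 < v j := by unfold v; split_ifs <;> norm_num
lemma c_nonneg (j : ℕ) : 0 ≤ c j := by
  unfold c; split_ifs with h <;> try norm_num
  have h1 : (j : ℝ) ≤ 10000 := by exact_mod_cast (by omega : j ≤ 10000)
  have h0 : (0 : ℝ) ≤ j := j.cast_nonneg
  have h2 : (0 : ℝ) ≤ j * (j - 1) := by
    rcases j with _ | j
    · simp
    · push_cast; nlinarith [(j.cast_nonneg : (0 : ℝ) ≤ j)]
  have h3 : (0 : ℝ) ≤ (j + 2) * (j + 1) * (j * (j - 1)) := by positivity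
  unfold be; nlinarith

lemma tri (n r : ℕ) (hr : r < n) (x : ℕ → ℝ) : ∑ s : Fin n, p r s * x s =
    a r * x r + (if r + 1 < n then b r * x (r + 1) else 0) +
      (if r = 0 then 0 else b (r - 1) * x (r - 1)) := by
  rw [Fin.sum_univ_eq_sum_range (fun s => p r s * x s)]
  simp only [p, add_mul, sum_add_distrib, ite_mul, zero_mul, sum_ite_eq', mem_range, hr, if_true]
  congr 1
  rcases r with _ | r
  · simp
  · simp [(by omega : r < n)]

lemma eqs (r : ℕ) (hr : r < 10003) : ∑ s : Fin 10003, p r s * v s = v r ∧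
    ∑ s : Fin 10003, p r s * α s = α r - 3 / 10 ^ 10 * β r - c r ∧
    ∑ s : Fin 10003, p r s * β s = β r + 3 / 10 ^ 10 * α r := by
  rw [tri _ r hr, tri _ r hr, tri _ r hr]
  rcases (by omega : r = 0 ∨ (0 < r ∧ r < 9999) ∨ r = 9999 ∨ r = 10000 ∨ r = 10001 ∨
    r = 10002) with rfl | ⟨h0, hm⟩ | rfl | rfl | rfl | rfl
  rotate_left
  · obtain ⟨m, rfl⟩ : ∃ m, r = m + 1 := ⟨r - 1, by omega⟩
    have h1 : m < 9999 := by omega
    have h2 : m + 1 < 9999 := by omega
    have h3 : m < 10000 := by omega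
    have h4 : m + 1 < 10000 := by omega
    have h5 : m + 1 + 1 < 10000 := by omega
    have h6 : m + 1 + 1 < 10003 := by omega
    simp only [a, b, v, α, β, c, h1, h2, h3, h4, h5, h6, if_true, Nat.add_sub_cancel,
      Nat.add_one_ne_zero, if_false, al, be]
    push_cast
    refine ⟨by norm_num, by ring, by ring⟩
  all_goals norm_num [a, b, v, α, β, c, al, be]

lemma sums : ∑ j : Fin 10003, α j = 0 ∧ ∑ j : Fin 10003, β j = 0 := by
  have h1 : ∀ N : ℕ, ∑ j ∈ range N, al j =
      (299999997 / 20000000000) * N - (9 / 10000000000) * ((N + 1) * N * (N - 1) / 6) := fun N => by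
    induction N with
    | zero => simp
    | succ N ih => rw [sum_range_succ, ih, al]; push_cast; ring
  have h2 : ∀ N : ℕ, ∑ j ∈ range N, be j = 99 / 100 * N + (2699999973 / 200000000000000000000) * ((N + 1) * N * (N - 1) / 6)
      - (81 / 100000000000000000000) * ((N + 2) * (N + 1) * N * (N - 1) * (N - 2) / 120) := fun N => by
    induction N with
    | zero => simp
    | succ N ih => rw [sum_range_succ, ih, be]; push_cast; ring
  rw [Fin.sum_univ_eq_sum_range α, Fin.sum_univ_eq_sum_range β, sum_range_succ α 10002,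
    sum_range_succ α 10001, sum_range_succ α 10000, sum_range_succ β 10002,
    sum_range_succ β 10001, sum_range_succ β 10000,
    sum_congr (g := fun j : ℕ => al j) rfl fun j hj => show α j = al j from if_pos (mem_range.1 hj),
    sum_congr (g := fun j : ℕ => be j) rfl fun j hj => show β j = be j from if_pos (mem_range.1 hj),
    h1, h2]
  norm_num [α, β]

theorem result : ∃ (n : ℕ) (P : Matrix (Fin n) (Fin n) ℝ) (c : Fin n → ℝ), 1 ≤ n ∧ Adm P ∧
    (∀ i, 0 ≤ c i) ∧ ∑ i, c i = 1 ∧ 1 < rho ((1 - vecMulVec c 1) * P) := by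
  obtain ⟨n, hn⟩ : ∃ n, n = 10003 := ⟨_, rfl⟩
  have E := eqs
  have S := sums
  rw [← hn] at E S
  haveI : NeZero n := ⟨by omega⟩
  have p0 : ∀ r s, 0 ≤ p r s := fun r s => by
    have := a_pos r; have := b_pos r; have := b_pos s
    unfold p; split_ifs <;> linarith
  set μ := ∑ j : Fin n, c j with hμ
  have μ0 : 0 < μ := sum_pos' (fun j _ => c_nonneg j) ⟨0, mem_univ _, by norm_num [c, be]⟩
  let P : Matrix (Fin n) (Fin n) ℝ := of fun r s => p r s
  refine ⟨n, P, fun j => c j / μ, by omega, ⟨?_, fun r s h => ?_, fun r s h => ?_, ?_, fun s => ?_⟩,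
    fun i => div_nonneg (c_nonneg i) μ0.le, by rw [← sum_div, div_self μ0.ne'], ?_⟩
  · ext r s
    simp only [P, transpose_apply, of_apply, p]
    split_ifs <;> first | omega | simp_all
  · rw [lt_abs] at h
    simp only [P, of_apply, p]
    split_ifs <;> first | omega | simp
  · rw [abs_le] at h
    have := a_pos r; have := b_pos r; have := b_pos s
    simp only [P, of_apply, p]
    split_ifs <;> first | omega | linarith
  · exact rho_one P (fun i j => p0 i j) (fun j => v j) (fun j => v_pos j)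
      (funext fun r => (E r r.2).1)
  · refine (sum_le_card_nsmul _ _ (1 / 3) fun r hr => ?_).trans ?_
    · have := (mem_filter.1 hr).2
      have := b_pos r; have := b_pos s
      simp only [P, of_apply, p]
      split_ifs <;> first | omega | linarith
    · have : #{r : Fin n | r.1 + 1 = s.1 ∨ r.1 = s.1 + 1} ≤ #({s.1 - 1, s.1 + 1} : Finset ℕ) :=
        card_le_card_of_injOn Fin.val (fun r hr => by
          have := (mem_filter.1 hr).2
          simp only [coe_insert, coe_singleton, Set.mem_insert_iff, Set.mem_singleton_iff]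
          omega) Fin.val_injective.injOn
      have h2 : (#{r : Fin n | r.1 + 1 = s.1 ∨ r.1 = s.1 + 1} : ℝ) ≤ 2 := by
        exact_mod_cast this.trans card_le_two
      rw [nsmul_eq_mul]; linarith
  · set Q := (1 - vecMulVec (fun j : Fin n => c j / μ) 1) * P with hQ
    have F : ∀ x : Fin n → ℝ, ∀ r, (Q *ᵥ x) r =
        (P *ᵥ x) r - c r / μ * ∑ j, (P *ᵥ x) j := fun x r => by
      rw [hQ, ← mulVec_mulVec, sub_mulVec, one_mulVec, vecMulVec_mulVec]
      simp [dotProduct]
    have Pa : ∀ r : Fin n, (P *ᵥ fun j => α j) r = α r - 3 / 10 ^ 10 * β r - c r :=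
      fun r => (E r r.2).2.1
    have Pb : ∀ r : Fin n, (P *ᵥ fun j => β j) r = β r + 3 / 10 ^ 10 * α r :=
      fun r => (E r r.2).2.2
    have Qa : ∀ r : Fin n, ∑ j, Q r j * α j = α r - 3 / 10 ^ 10 * β r := fun r => by
      refine (F (fun j => α j) r).trans ?_
      simp only [Pa, sum_sub_distrib, ← mul_sum, S.1, S.2, ← hμ]
      field_simp; ring
    have Qb : ∀ r : Fin n, ∑ j, Q r j * β j = β r + 3 / 10 ^ 10 * α r := fun r => by
      refine (F (fun j => β j) r).trans ?_
      simp only [Pb, sum_add_distrib, ← mul_sum, S.1, S.2]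
      ring
    refine lt_of_lt_of_le ?_ (le_rho Q ⟨1, 3 / 10 ^ 10⟩ (fun j => ⟨α j, β j⟩) (fun e => ?_) ?_)
    · have : (1 : ℝ) < ‖(⟨1, 3 / 10 ^ 10⟩ : ℂ)‖ := by
        rw [Complex.norm_def, Real.lt_sqrt zero_le_one, Complex.normSq_mk]; norm_num
      exact_mod_cast this
    · have := congrArg Complex.im (congrFun e 0)
      norm_num [β, be] at this
    · ext r
      apply Complex.ext
      · simpa [mulVec, dotProduct] using Qa r
      · simpa [mulVec, dotProduct] using Qb r

end Pool.Agent.Results.MP_8f6a5a_an.Cex
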